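import Mathlib

/-!
# Deleting the excess: combinatorial lemmas
-/

set_option autoImplicit false

open Finset

namespace Pool.Agent.H38.Exc

lemma sum_biUnion_le' {ι κ : Type*} [DecidableEq κ] [DecidableEq ι] (s : Finset ι)
    (t : ι → Finset κ) (f : κ → ℝ) (hf : ∀ k, 0 ≤ f k) :
    ∑ k ∈ s.biUnion t, f k ≤ ∑ i ∈ s, ∑ k ∈ t i, f k := by
  induction s using Finset.induction_on with
  | empty => simp
  | insert a s ha ih =>
    rw [biUnion_insert, sum_insert ha]
    have h := sum_union_inter (s₁ := t a) (s₂ := s.biUnion t) (f := f)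
    have h0 : 0 ≤ ∑ k ∈ t a ∩ s.biUnion t, f k := sum_nonneg fun k _ => hf k
    linarith

/-- number of ordered representations in a finite set -/
def rf (B : Finset ℕ) (n : ℕ) : ℕ := ((B ×ˢ B).filter (fun p => p.1 + p.2 = n)).card

lemma rf_mono {B B' : Finset ℕ} (h : B ⊆ B') (n : ℕ) : rf B n ≤ rf B' n := by
  unfold rf
  apply card_le_card
  intro p hp
  simp only [mem_filter, mem_product] at hp ⊢
  exact ⟨⟨h hp.1.1, h hp.1.2⟩, hp.2⟩

/-- the elements `a` of `B` with `n - a ∈ B` and `n ≤ 2 a` -/
def Mn (B : Finset ℕ) (n : ℕ) : Finset ℕ := B.filter (fun a => a ≤ n ∧ n - a ∈ B ∧ n ≤ 2 * a)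

lemma exists_del (B : Finset ℕ) (n K : ℕ) : ∃ D : Finset ℕ, D ⊆ Mn B n ∧
    D.card ≤ rf B n - K ∧ ∀ B' : Finset ℕ, B' ⊆ B \ D → rf B' n ≤ K := by
  obtain ⟨D, hD, hc⟩ := exists_subset_card_eq (s := Mn B n)
    (n := min (Mn B n).card (rf B n - K)) (min_le_left _ _)
  refine ⟨D, hD, by rw [hc]; exact min_le_right _ _, ?_⟩
  intro B' hB'
  by_cases hcase : (Mn B n).card ≤ rf B n - K
  · have hDM : D = Mn B n := by
      apply eq_of_subset_of_card_le hD
      rw [hc, min_eq_left hcase]
    have : rf B' n = 0 := by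
      unfold rf
      rw [card_eq_zero, filter_eq_empty_iff]
      rintro ⟨a, b⟩ hp hab
      simp only [mem_product] at hp hab
      have ha := mem_sdiff.1 (hB' hp.1)
      have hb := mem_sdiff.1 (hB' hp.2)
      rw [hDM] at ha hb
      rcases le_total a b with h | h
      · apply hb.2
        unfold Mn
        rw [mem_filter]
        refine ⟨hb.1, by omega, ?_, by omega⟩
        have : n - b = a := by omega
        rw [this]; exact ha.1
      · apply ha.2
        unfold Mn
        rw [mem_filter]
        refine ⟨ha.1, by omega, ?_, by omega⟩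
        have : n - a = b := by omega
        rw [this]; exact hb.1
    omega
  · push Not at hcase
    rw [min_eq_right hcase.le] at hc
    -- the removed representations
    have h1 : ((B ×ˢ B).filter (fun p => p.1 + p.2 = n)) ⊇
        ((B' ×ˢ B').filter (fun p => p.1 + p.2 = n)) ∪ D.image (fun a => (a, n - a)) := by
      intro p hp
      rw [mem_union] at hp
      rcases hp with hp | hp
      · simp only [mem_filter, mem_product] at hp ⊢
        exact ⟨⟨(mem_sdiff.1 (hB' hp.1.1)).1, (mem_sdiff.1 (hB' hp.1.2)).1⟩, hp.2⟩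
      · rw [mem_image] at hp
        obtain ⟨a, ha, rfl⟩ := hp
        have := hD ha
        unfold Mn at this
        rw [mem_filter] at this
        simp only [mem_filter, mem_product]
        exact ⟨⟨this.1, this.2.2.1⟩, by omega⟩
    have h2 : Disjoint ((B' ×ˢ B').filter (fun p => p.1 + p.2 = n))
        (D.image (fun a => (a, n - a))) := by
      rw [disjoint_left]
      intro p hp hp'
      rw [mem_image] at hp'
      obtain ⟨a, ha, rfl⟩ := hp'
      simp only [mem_filter, mem_product] at hp
      exact (mem_sdiff.1 (hB' hp.1.1)).2 ha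
    have h3 := card_le_card h1
    rw [card_union_of_disjoint h2, card_image_of_injective _
      (fun a b h => (Prod.mk.inj h).1)] at h3
    unfold rf at *
    omega

/-- the deletion: a set `D` such that `B \ D` has at most `K` representations of everything -/
lemma exists_deletion (B : Finset ℕ) (N K : ℕ) (hK : 1 ≤ K) (hB : ∀ b ∈ B, 2 * b ≤ N) :
    ∃ D : Finset ℕ, D ⊆ B ∧ (∀ n, rf (B \ D) n ≤ K) ∧ (∀ a ∈ D, 1 ≤ a) ∧
    ∑ a ∈ D, 1 / √(a : ℝ) ≤ √2 * ∑ n ∈ Icc 1 N, ((rf B n - K : ℕ) : ℝ) / √(n : ℝ) := by
  classical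
  choose D hD1 hD2 hD3 using fun n => exists_del B n K
  have hDn : ∀ n, ∀ a ∈ D n, a ∈ B ∧ a ≤ n ∧ n - a ∈ B ∧ n ≤ 2 * a := by
    intro n a ha
    have := hD1 n ha
    unfold Mn at this
    rw [mem_filter] at this
    exact this
  have h0 : ∀ a ∈ (Icc 1 N).biUnion D, 1 ≤ a := by
    intro a ha
    rw [mem_biUnion] at ha
    obtain ⟨n, hn, ha⟩ := ha
    have := hDn n a ha
    rw [mem_Icc] at hn
    omega
  refine ⟨(Icc 1 N).biUnion D, ?_, ?_, h0, ?_⟩
  · intro a ha
    rw [mem_biUnion] at ha
    obtain ⟨n, hn, ha⟩ := ha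
    exact (hDn n a ha).1
  · intro n
    by_cases hn : n ∈ Icc 1 N
    · apply hD3 n
      intro a ha
      rw [mem_sdiff] at ha ⊢
      refine ⟨ha.1, fun h => ha.2 ?_⟩
      rw [mem_biUnion]
      exact ⟨n, hn, h⟩
    · rw [mem_Icc] at hn
      by_cases h0 : n = 0
      · subst h0
        refine le_trans ?_ hK
        unfold rf
        rw [card_le_one]
        rintro ⟨a, b⟩ hp ⟨c, d⟩ hq
        simp only [mem_filter] at hp hq
        have e1 : a = 0 := by omega
        have e2 : b = 0 := by omega
        have e3 : c = 0 := by omega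
        have e4 : d = 0 := by omega
        rw [e1, e2, e3, e4]
      · have hN : N < n := by omega
        have : rf (B \ (Icc 1 N).biUnion D) n = 0 := by
          unfold rf
          rw [card_eq_zero, filter_eq_empty_iff]
          rintro ⟨a, b⟩ hp hab
          simp only [mem_product, mem_sdiff] at hp hab
          have := hB a hp.1.1
          have := hB b hp.2.1
          omega
        omega
  · calc ∑ a ∈ (Icc 1 N).biUnion D, 1 / √(a : ℝ) 
        ≤ ∑ n ∈ Icc 1 N, ∑ a ∈ D n, 1 / √(a : ℝ) := by
          apply sum_biUnion_le'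
          intro a
          positivity
      _ ≤ ∑ n ∈ Icc 1 N, √2 * (((rf B n - K : ℕ) : ℝ) / √(n : ℝ)) := by
          apply sum_le_sum
          intro n hn
          rw [mem_Icc] at hn
          have hn0 : (0 : ℝ) < n := by exact_mod_cast hn.1
          calc ∑ a ∈ D n, 1 / √(a : ℝ) ≤ ∑ a ∈ D n, √2 / √(n : ℝ) := by
                apply sum_le_sum
                intro a ha
                have h := hDn n a ha
                have ha0 : (0 : ℝ) < a := by
                  have : 0 < a := by omega
                  exact_mod_cast this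
                rw [div_le_div_iff₀ (by positivity) (by positivity), one_mul,
                  ← Real.sqrt_mul (by norm_num)]
                apply Real.sqrt_le_sqrt
                exact_mod_cast h.2.2.2
            _ = (D n).card * (√2 / √(n : ℝ)) := by rw [sum_const, nsmul_eq_mul]
            _ ≤ ((rf B n - K : ℕ) : ℝ) * (√2 / √(n : ℝ)) := by
                apply mul_le_mul_of_nonneg_right _ (by positivity)
                exact_mod_cast hD2 n
            _ = √2 * (((rf B n - K : ℕ) : ℝ) / √(n : ℝ)) := by ring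
      _ = √2 * ∑ n ∈ Icc 1 N, ((rf B n - K : ℕ) : ℝ) / √(n : ℝ) := by rw [mul_sum]

/-- growth: `|B ∩ [0, y]| ^ 2 ≤ ∑_{n ≤ 2 y} r_B(n)` -/
lemma count_sq (B : Finset ℕ) (y : ℕ) :
    (B.filter (fun b => b ≤ y)).card ^ 2 ≤ ∑ n ∈ range (2 * y + 1), rf B n := by
  have : ∑ n ∈ range (2 * y + 1), rf B n =
      ((B ×ˢ B).filter (fun p => p.1 + p.2 ∈ range (2 * y + 1))).card := by
    rw [card_eq_sum_card_fiberwise (f := fun p : ℕ × ℕ => p.1 + p.2)
      (t := range (2 * y + 1)) (fun p hp => by simpa using (mem_filter.1 hp).2)]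
    apply sum_congr rfl
    intro n hn
    unfold rf
    congr 1
    ext p
    simp only [mem_filter, mem_product]
    constructor
    · rintro ⟨h1, h2⟩
      exact ⟨⟨h1, by rw [h2]; exact hn⟩, h2⟩
    · rintro ⟨⟨h1, _⟩, h2⟩
      exact ⟨h1, h2⟩
  rw [this, sq, ← card_product]
  apply card_le_card
  intro p hp
  simp only [mem_filter, mem_product, mem_range] at hp ⊢
  exact ⟨⟨hp.1.1, hp.2.1⟩, by omega⟩

/-- growth from small excess -/
lemma growth (B : Finset ℕ) (N K y : ℕ) (hK : 1 ≤ K) (hB : ∀ b ∈ B, 2 * b ≤ N) (S : ℝ)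
    (hS : ∑ n ∈ Icc 1 N, ((rf B n - K : ℕ) : ℝ) / √(n : ℝ) ≤ S) (hy : 1 + S ^ 2 ≤ y) :
    ((B.filter (fun b => b ≤ y)).card : ℝ) ≤ √(3 * K + 2) * √(y : ℝ) := by
  have hS0 : 0 ≤ S := le_trans (sum_nonneg fun n _ => by positivity) hS
  have hy0 : (0 : ℝ) ≤ y := by positivity
  have hy1 : (1 : ℝ) ≤ y := by nlinarith [sq_nonneg S]
  rw [← Real.sqrt_mul (by positivity)]
  apply Real.le_sqrt_of_sq_le
  have h1 : (((B.filter (fun b => b ≤ y)).card ^ 2 : ℕ) : ℝ) ≤
      ((∑ n ∈ range (2 * y + 1), rf B n : ℕ) : ℝ) := by exact_mod_cast count_sq B y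
  have h2 : ∑ n ∈ range (2 * y + 1), (rf B n : ℝ) ≤
      ∑ n ∈ range (2 * y + 1), (K : ℝ) + ∑ n ∈ Icc 1 (2 * y), ((rf B n - K : ℕ) : ℝ) := by
    have h0 : rf B 0 ≤ K := by
      refine le_trans ?_ hK
      unfold rf
      rw [card_le_one]
      rintro ⟨a, b⟩ hp ⟨c, d⟩ hq
      simp only [mem_filter] at hp hq
      have e1 : a = 0 := by omega
      have e2 : b = 0 := by omega
      have e3 : c = 0 := by omega
      have e4 : d = 0 := by omega
      rw [e1, e2, e3, e4]
    have hIcc : range (2 * y + 1) = insert 0 (Icc 1 (2 * y)) := by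
      ext n; simp only [mem_range, mem_insert, mem_Icc]; omega
    rw [hIcc, sum_insert (by simp), sum_insert (by simp)]
    have : ∑ n ∈ Icc 1 (2 * y), (rf B n : ℝ) ≤
        ∑ n ∈ Icc 1 (2 * y), (K : ℝ) + ∑ n ∈ Icc 1 (2 * y), ((rf B n - K : ℕ) : ℝ) := by
      rw [← sum_add_distrib]
      apply sum_le_sum
      intro n _
      have : rf B n ≤ K + (rf B n - K) := by omega
      exact_mod_cast this
    have h0' : (rf B 0 : ℝ) ≤ K := by exact_mod_cast h0
    linarith
  have h3 : ∑ n ∈ Icc 1 (2 * y), ((rf B n - K : ℕ) : ℝ) ≤ √(2 * y) * S := by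
    calc ∑ n ∈ Icc 1 (2 * y), ((rf B n - K : ℕ) : ℝ)
        ≤ ∑ n ∈ Icc 1 (2 * y), √(2 * y) * (((rf B n - K : ℕ) : ℝ) / √(n : ℝ)) := by
          apply sum_le_sum
          intro n hn
          rw [mem_Icc] at hn
          have hn0 : (0 : ℝ) < n := by exact_mod_cast hn.1
          rw [mul_div_assoc', le_div_iff₀ (by positivity), mul_comm]
          apply mul_le_mul_of_nonneg_right _ (by positivity)
          apply Real.sqrt_le_sqrt
          exact_mod_cast hn.2
      _ = √(2 * y) * ∑ n ∈ Icc 1 (2 * y), ((rf B n - K : ℕ) : ℝ) / √(n : ℝ) := by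
          rw [mul_sum]
      _ ≤ √(2 * y) * S := by
          apply mul_le_mul_of_nonneg_left _ (by positivity)
          refine le_trans ?_ hS
          by_cases hyN : 2 * y ≤ N
          · apply sum_le_sum_of_subset_of_nonneg
            · intro n hn
              rw [mem_Icc] at hn ⊢
              omega
            · intro n _ _
              positivity
          · push Not at hyN
            rw [← sum_filter_add_sum_filter_not (Icc 1 (2 * y)) (fun n => n ≤ N)]
            have e1 : (Icc 1 (2 * y)).filter (fun n => n ≤ N) = Icc 1 N := by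
              ext n; simp only [mem_filter, mem_Icc]; omega
            have e2 : ∑ n ∈ (Icc 1 (2 * y)).filter (fun n => ¬ n ≤ N),
                ((rf B n - K : ℕ) : ℝ) / √(n : ℝ) = 0 := by
              apply sum_eq_zero
              intro n hn
              rw [mem_filter] at hn
              have : rf B n = 0 := by
                unfold rf
                rw [card_eq_zero, filter_eq_empty_iff]
                rintro ⟨a, b⟩ hp hab
                simp only [mem_product] at hp hab
                have := hB a hp.1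
                have := hB b hp.2
                omega
              rw [this]
              simp
            rw [e1, e2, add_zero]
  have h4 : √(2 * y) * S ≤ 2 * y := by
    have : S ≤ √(2 * (y : ℝ)) := by
      apply Real.le_sqrt_of_sq_le
      nlinarith
    calc √(2 * y) * S ≤ √(2 * y) * √(2 * y) := by
          apply mul_le_mul_of_nonneg_left this (by positivity)
      _ = 2 * y := Real.mul_self_sqrt (by positivity)
  rw [sum_const, card_range, nsmul_eq_mul] at h2
  push_cast at h1 h2
  have hK0 : (0 : ℝ) ≤ K := by positivity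
  nlinarith [mul_le_mul_of_nonneg_left hy1 hK0]

/-- the sum of `1 / max m b` over `b ∈ B` -/
lemma sum_max (B : Finset ℕ) (M : ℝ) (hM : 0 ≤ M) (m : ℕ) (hm : 1 ≤ m)
    (h : ∀ y : ℕ, m ≤ y → ((B.filter (fun b => b ≤ y)).card : ℝ) ≤ M * √(y : ℝ)) :
    ∑ b ∈ B, 1 / (max m b : ℝ) ≤ 2 * M / √(m : ℝ) := by
  have hm0 : (0 : ℝ) < m := by exact_mod_cast hm
  have key : ∀ T : ℕ, m ≤ T → ∑ b ∈ B.filter (fun b => b ≤ T), 1 / (max m b : ℝ) ≤
      ((B.filter (fun b => b ≤ T)).card : ℝ) / T + 2 * M / √(m : ℝ) - 2 * M / √(T : ℝ) := by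
    intro T hT
    induction T, hT using Nat.le_induction with
    | base =>
      have : ∑ b ∈ B.filter (fun b => b ≤ m), 1 / (max m b : ℝ) =
          ∑ b ∈ B.filter (fun b => b ≤ m), 1 / (m : ℝ) := by
        apply sum_congr rfl
        intro b hb
        rw [mem_filter] at hb
        rw [max_eq_left (by exact_mod_cast hb.2)]
      rw [this, sum_const, nsmul_eq_mul]
      apply le_of_eq
      ring
    | succ T hT ih =>
      have hT0 : (0 : ℝ) < T := by
        have : 0 < T := by omega
        exact_mod_cast this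
      set c : ℝ := if T + 1 ∈ B then 1 else 0 with hc
      have hfil : B.filter (fun b => b ≤ T + 1) =
          B.filter (fun b => b ≤ T) ∪ B.filter (fun b => b = T + 1) := by
        ext b; simp only [mem_filter, mem_union]; constructor
        · rintro ⟨h1, h2⟩
          rcases Nat.lt_or_ge T b with h | h
          · right; exact ⟨h1, by omega⟩
          · left; exact ⟨h1, h⟩
        · rintro (⟨h1, h2⟩ | ⟨h1, h2⟩)
          · exact ⟨h1, by omega⟩
          · exact ⟨h1, by omega⟩
      have hdis : Disjoint (B.filter (fun b => b ≤ T)) (B.filter (fun b => b = T + 1)) := by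
        rw [disjoint_left]
        intro b hb hb'
        rw [mem_filter] at hb hb'
        omega
      have e1 : ∑ b ∈ B.filter (fun b => b ≤ T + 1), 1 / (max m b : ℝ) =
          ∑ b ∈ B.filter (fun b => b ≤ T), 1 / (max m b : ℝ) + c / ((T : ℝ) + 1) := by
        rw [hfil, sum_union hdis]
        congr 1
        by_cases hTB : T + 1 ∈ B
        · have : B.filter (fun b => b = T + 1) = {T + 1} := by
            ext b; simp only [mem_filter, mem_singleton]
            exact ⟨fun h => h.2, fun h => ⟨by rw [h]; exact hTB, h⟩⟩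
          rw [this, sum_singleton, hc, if_pos hTB]
          rw [max_eq_right (by exact_mod_cast (by omega : m ≤ T + 1))]
          push_cast
          rfl
        · have : B.filter (fun b => b = T + 1) = ∅ := by
            rw [filter_eq_empty_iff]
            intro b hb h
            rw [h] at hb
            exact hTB hb
          rw [this, sum_empty, hc, if_neg hTB]
          simp
      have e2 : ((B.filter (fun b => b ≤ T + 1)).card : ℝ) =
          ((B.filter (fun b => b ≤ T)).card : ℝ) + c := by
        rw [hfil, card_union_of_disjoint hdis]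
        push_cast
        congr 1
        by_cases hTB : T + 1 ∈ B
        · have : B.filter (fun b => b = T + 1) = {T + 1} := by
            ext b; simp only [mem_filter, mem_singleton]
            exact ⟨fun h => h.2, fun h => ⟨by rw [h]; exact hTB, h⟩⟩
          rw [this, card_singleton, hc, if_pos hTB]
          simp
        · have : B.filter (fun b => b = T + 1) = ∅ := by
            rw [filter_eq_empty_iff]
            intro b hb h
            rw [h] at hb
            exact hTB hb
          rw [this, card_empty, hc, if_neg hTB]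
          simp
      rw [e1, e2]
      have hc1 := h T hT
      set b0 : ℝ := ((B.filter (fun b => b ≤ T)).card : ℝ) with hb0
      push_cast
      -- b0 / T - b0 / (T+1) ≤ 2 M (1/√T - 1/√(T+1))
      have h5 : b0 / T - b0 / ((T : ℝ) + 1) ≤ 2 * M / √(T : ℝ) - 2 * M / √((T : ℝ) + 1) := by
        have f1 : b0 / T - b0 / ((T : ℝ) + 1) = b0 / (T * ((T : ℝ) + 1)) := by
          field_simp
          ring
        have f2 : b0 / (T * ((T : ℝ) + 1)) ≤ M * √(T : ℝ) / (T * ((T : ℝ) + 1)) := by
          apply div_le_div_of_nonneg_right hc1 (by positivity)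
        have f3 : M * √(T : ℝ) / (T * ((T : ℝ) + 1)) ≤
            2 * M / √(T : ℝ) - 2 * M / √((T : ℝ) + 1) := by
          set s : ℝ := √(T : ℝ) with hs
          set t : ℝ := √((T : ℝ) + 1) with ht
          have hs2 : s ^ 2 = T := Real.sq_sqrt hT0.le
          have ht2 : t ^ 2 = (T : ℝ) + 1 := Real.sq_sqrt (by positivity)
          have hs0 : 0 < s := Real.sqrt_pos.2 hT0
          have ht0 : 0 < t := Real.sqrt_pos.2 (by positivity)
          have hst : s ≤ t := Real.sqrt_le_sqrt (by linarith)
          rw [← ht2, ← hs2]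
          have : M * s / (s ^ 2 * t ^ 2) = M * (1 / (s * t ^ 2)) := by
            field_simp
          rw [this]
          have : 2 * M / s - 2 * M / t = M * (2 * (t - s) / (s * t)) := by
            field_simp
          rw [this]
          apply mul_le_mul_of_nonneg_left _ hM
          rw [div_le_div_iff₀ (by positivity) (by positivity)]
          have h6 : (t - s) * (t + s) = 1 := by nlinarith
          have h7 : 1 ≤ (t - s) * (2 * t) := by nlinarith
          have h8 : 0 < s * t := by positivity
          nlinarith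
        linarith
      have h9 : (b0 + c) / ((T : ℝ) + 1) = b0 / ((T : ℝ) + 1) + c / ((T : ℝ) + 1) := by
        rw [add_div]
      rw [h9]
      linarith
  set T := max m (B.sup id) with hT
  have hmT : m ≤ T := le_max_left _ _
  have hT0 : (0 : ℝ) < T := by
    have : 0 < T := by omega
    exact_mod_cast this
  have hfilt : B.filter (fun b => b ≤ T) = B := by
    rw [filter_eq_self]
    intro b hb
    exact le_trans (le_sup (f := id) hb) (le_max_right _ _)
  have h1 := key T hmT
  have h2 := h T hmT
  rw [hfilt] at h1 h2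
  have h3 : (B.card : ℝ) / T ≤ M / √(T : ℝ) := by
    rw [div_le_div_iff₀ hT0 (Real.sqrt_pos.2 hT0)]
    calc (B.card : ℝ) * √(T : ℝ) ≤ (M * √(T : ℝ)) * √(T : ℝ) :=
          mul_le_mul_of_nonneg_right h2 (by positivity)
      _ = M * T := by rw [mul_assoc, Real.mul_self_sqrt hT0.le]
  have h4 : 0 ≤ M / √(T : ℝ) := by positivity
  have h5 : 2 * M / √(T : ℝ) = 2 * (M / √(T : ℝ)) := by ring
  linarith

end Pool.Agent.H38.Exc
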