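import Pool.Agent.H38.Exc
import Pool.Agent.H38.ET8.W247.ET.All

/-!
# The total excess of an additive basis of order two
-/

set_option autoImplicit false

open Finset

namespace Pool.Agent.H38.Exc

open Pool.Agent.W247.ET (r)

lemma r_finite (A : Set ℕ) (n : ℕ) :
    {p : ℕ × ℕ | p.1 ∈ A ∧ p.2 ∈ A ∧ p.1 + p.2 = n}.Finite := by
  apply Set.Finite.subset (Finset.finite_toSet (range (n + 1) ×ˢ range (n + 1)))
  rintro ⟨a, b⟩ ⟨_, _, h⟩
  simp only [coe_product, Set.mem_prod, mem_coe, mem_range]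
  simp only at h
  omega

lemma r_coe (B : Finset ℕ) (n : ℕ) : r (B : Set ℕ) n = rf B n := by
  unfold r rf
  rw [← Set.ncard_coe_finset]
  congr 1
  ext p
  simp [and_assoc]

lemma rf_le_r {A : Set ℕ} {B : Finset ℕ} (h : ∀ b ∈ B, b ∈ A) (n : ℕ) : rf B n ≤ r A n := by
  rw [← r_coe]
  unfold r
  apply Set.ncard_le_ncard _ (r_finite A n)
  rintro p ⟨h1, h2, h3⟩
  exact ⟨h _ h1, h _ h2, h3⟩

lemma sum_inv_le (m : ℕ) : ∑ n ∈ Icc 1 m, 1 / (n : ℝ) ≤ 1 + Real.log m := by
  have h := harmonic_le_one_add_log m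
  have e : ((harmonic m : ℚ) : ℝ) = ∑ n ∈ Icc 1 m, 1 / (n : ℝ) := by
    rw [harmonic_eq_sum_Icc]
    push_cast
    apply sum_congr rfl
    intro n _
    rw [one_div]
  rw [← e]
  exact h

/-- the numbers lost by the deletion -/
lemma lost (B D : Finset ℕ) (M S : ℝ) (hM : 0 ≤ M) (hD1 : ∀ a ∈ D, 1 ≤ a) (Y : ℕ) (hY : 1 ≤ Y)
    (h : ∀ y : ℕ, Y ≤ y → ((B.filter (fun b => b ≤ y)).card : ℝ) ≤ M * √(y : ℝ))
    (hDS : ∑ a ∈ D, 1 / √(a : ℝ) ≤ √2 * S) :
    ∑ n ∈ ((D ×ˢ B).filter (fun p => 2 * Y ^ 2 ≤ p.1 + p.2)).image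
        (fun p : ℕ × ℕ => p.1 + p.2),
      1 / (n : ℝ) ≤ 2 * M * (√2 * S) := by
  have hYY : Y ≤ Y ^ 2 := by nlinarith
  calc ∑ n ∈ ((D ×ˢ B).filter (fun p => 2 * Y ^ 2 ≤ p.1 + p.2)).image
          (fun p : ℕ × ℕ => p.1 + p.2), 1 / (n : ℝ)
      ≤ ∑ p ∈ (D ×ˢ B).filter (fun p => 2 * Y ^ 2 ≤ p.1 + p.2), 1 / ((p.1 + p.2 : ℕ) : ℝ) := by
        apply sum_image_le_of_nonneg (f := fun n : ℕ => 1 / (n : ℝ))
          (g := fun p : ℕ × ℕ => p.1 + p.2)
        intro p _
        positivity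
    _ = ∑ a ∈ D, ∑ b ∈ B, if 2 * Y ^ 2 ≤ a + b then 1 / ((a + b : ℕ) : ℝ) else 0 := by
        rw [sum_filter, sum_product]
    _ ≤ ∑ a ∈ D, 2 * M * (1 / √(a : ℝ)) := by
        apply sum_le_sum
        intro a ha
        have ha1 := hD1 a ha
        have ha0 : (1 : ℝ) ≤ a := by exact_mod_cast ha1
        by_cases hYa : Y ≤ a
        · have h1 := sum_max B M hM a ha1 (fun y hy => h y (le_trans hYa hy))
          calc ∑ b ∈ B, (if 2 * Y ^ 2 ≤ a + b then 1 / ((a + b : ℕ) : ℝ) else 0)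
              ≤ ∑ b ∈ B, 1 / (max a b : ℝ) := by
                apply sum_le_sum
                intro b _
                have hb0 : (0 : ℝ) ≤ b := by positivity
                split_ifs
                · push_cast
                  apply one_div_le_one_div_of_le
                  · exact lt_of_lt_of_le (by linarith) (le_max_left _ _)
                  · exact max_le (by linarith) (by linarith)
                · positivity
            _ ≤ 2 * M / √(a : ℝ) := h1
            _ = 2 * M * (1 / √(a : ℝ)) := by ring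
        · push Not at hYa
          have h1 := sum_max B M hM (Y ^ 2) (by omega) (fun y hy => h y (le_trans hYY hy))
          calc ∑ b ∈ B, (if 2 * Y ^ 2 ≤ a + b then 1 / ((a + b : ℕ) : ℝ) else 0)
              ≤ ∑ b ∈ B, 1 / (max ((Y ^ 2 : ℕ) : ℝ) b : ℝ) := by
                apply sum_le_sum
                intro b _
                have hb0 : (0 : ℝ) ≤ b := by positivity
                split_ifs with hab
                · have hb : Y ^ 2 ≤ b := by omega
                  have hb' : ((Y ^ 2 : ℕ) : ℝ) ≤ b := by exact_mod_cast hb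
                  rw [max_eq_right hb']
                  push_cast
                  apply one_div_le_one_div_of_le
                  · have : (0 : ℝ) < ((Y ^ 2 : ℕ) : ℝ) := by positivity
                    linarith
                  · linarith
                · positivity
            _ ≤ 2 * M / √((Y ^ 2 : ℕ) : ℝ) := h1
            _ = 2 * M / Y := by
                push_cast
                rw [Real.sqrt_sq (by positivity)]
            _ ≤ 2 * M / √(a : ℝ) := by
                apply div_le_div_of_nonneg_left (by positivity) (by positivity)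
                rw [Real.sqrt_le_left (by positivity)]
                have : (a : ℝ) ≤ Y := by exact_mod_cast hYa.le
                have : (1 : ℝ) ≤ Y := by exact_mod_cast hY
                nlinarith
            _ = 2 * M * (1 / √(a : ℝ)) := by ring
    _ = 2 * M * ∑ a ∈ D, 1 / √(a : ℝ) := by rw [mul_sum]
    _ ≤ 2 * M * (√2 * S) := mul_le_mul_of_nonneg_left hDS (by positivity)

open Classical in
theorem excess_aux (K : ℕ) (hK : 1 ≤ K) : ∃ δ : ℝ, 0 < δ ∧ ∃ C : ℝ, ∀ A : Set ℕ, ∀ N : ℕ, 1 ≤ N →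
    δ * Real.log N - C ≤
      ∑ n ∈ (Icc 1 N).filter (fun n => r A n = 0 ∨ 8 ≤ r A n), 1 / (n : ℝ) +
      ∑ n ∈ Icc 1 N, ((r A n - K : ℕ) : ℝ) / √(n : ℝ) := by
  obtain ⟨δ, hδ, C, hC⟩ := Pool.Agent.W247.ET.main K
  set M : ℝ := √(3 * K + 2) with hM
  have hM0 : 0 ≤ M := Real.sqrt_nonneg _
  set c : ℝ := 4 + 2 * M * √2 with hc
  have hc1 : 1 ≤ c := by
    have : 0 ≤ 2 * M * √2 := by positivity
    linarith
  have hc0 : 0 < c := by linarith
  refine ⟨δ / c, by positivity, (C + 12) / c, ?_⟩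
  intro A N hN
  set S : ℝ := ∑ n ∈ Icc 1 N, ((r A n - K : ℕ) : ℝ) / √(n : ℝ) with hS
  have hS0 : 0 ≤ S := sum_nonneg fun n _ => by positivity
  set Z : ℝ := ∑ n ∈ (Icc 1 N).filter (fun n => r A n = 0 ∨ 8 ≤ r A n), 1 / (n : ℝ) with hZ
  have hZ0 : 0 ≤ Z := sum_nonneg fun n _ => by positivity
  set B : Finset ℕ := (range (N / 2 + 1)).filter (fun b => b ∈ A) with hB
  have hBA : ∀ b ∈ B, b ∈ A := fun b hb => (mem_filter.1 hb).2
  have hBN : ∀ b ∈ B, 2 * b ≤ N := by
    intro b hb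
    have := (mem_filter.1 hb).1
    rw [mem_range] at this
    omega
  have hBS : ∑ n ∈ Icc 1 N, ((rf B n - K : ℕ) : ℝ) / √(n : ℝ) ≤ S := by
    apply sum_le_sum
    intro n _
    apply div_le_div_of_nonneg_right _ (by positivity)
    have := rf_le_r hBA n
    exact_mod_cast (by omega : rf B n - K ≤ r A n - K)
  obtain ⟨D, hDB, hDK, hD1, hDS⟩ := exists_deletion B N K hK hBN
  have hDS' : ∑ a ∈ D, 1 / √(a : ℝ) ≤ √2 * S :=
    le_trans hDS (mul_le_mul_of_nonneg_left hBS (by positivity))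
  set Y : ℕ := ⌈1 + S ^ 2⌉₊ with hY
  have hYS : 1 + S ^ 2 ≤ Y := Nat.le_ceil _
  have hYS2 : (Y : ℝ) < 2 + S ^ 2 := by
    have := Nat.ceil_lt_add_one (a := 1 + S ^ 2) (by positivity)
    rw [← hY] at this
    linarith
  have hY1 : 1 ≤ Y := by
    have : (1 : ℝ) ≤ Y := by nlinarith [sq_nonneg S]
    exact_mod_cast this
  have hgrow : ∀ y : ℕ, Y ≤ y → ((B.filter (fun b => b ≤ y)).card : ℝ) ≤ M * √(y : ℝ) := by
    intro y hy
    have : (Y : ℝ) ≤ y := by exact_mod_cast hy
    exact growth B N K y hK hBN S hBS (by linarith)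
  have hlost := lost B D M S hM0 hD1 Y hY1 hgrow hDS'
  have hmain := hC ((B \ D : Finset ℕ) : Set ℕ) (fun n => by rw [r_coe]; exact hDK n) N hN
  -- the exceptional set of `B \ D`
  have hsub : (Icc 1 N).filter (fun n => r ((B \ D : Finset ℕ) : Set ℕ) n = 0 ∨
        8 ≤ r ((B \ D : Finset ℕ) : Set ℕ) n) ⊆
      ((Icc 1 N).filter (fun n => r A n = 0 ∨ 8 ≤ r A n) ∪ Ioc (N / 2) N) ∪
      (Icc 1 (2 * Y ^ 2) ∪
        ((D ×ˢ B).filter (fun p => 2 * Y ^ 2 ≤ p.1 + p.2)).image (fun p => p.1 + p.2)) := by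
    intro n hn
    rw [mem_filter] at hn
    obtain ⟨hn, hcase⟩ := hn
    simp only [mem_union]
    by_cases h1 : r A n = 0 ∨ 8 ≤ r A n
    · left; left
      rw [mem_filter]
      exact ⟨hn, h1⟩
    by_cases h2 : N / 2 < n
    · left; right
      rw [mem_Ioc]
      exact ⟨h2, (mem_Icc.1 hn).2⟩
    right
    by_cases h3 : n ≤ 2 * Y ^ 2
    · left
      rw [mem_Icc]
      exact ⟨(mem_Icc.1 hn).1, h3⟩
    right
    push Not at h1 h2 h3
    rcases hcase with hcase | hcase
    · -- lost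
      have hne : {p : ℕ × ℕ | p.1 ∈ A ∧ p.2 ∈ A ∧ p.1 + p.2 = n}.Nonempty := by
        rw [Set.nonempty_iff_ne_empty]
        intro h0
        apply h1.1
        unfold r
        rw [h0, Set.ncard_empty]
      obtain ⟨⟨a, b⟩, ha, hb, hab⟩ := hne
      simp only at ha hb hab
      have haB : a ∈ B := by
        rw [hB, mem_filter, mem_range]
        exact ⟨by omega, ha⟩
      have hbB : b ∈ B := by
        rw [hB, mem_filter, mem_range]
        exact ⟨by omega, hb⟩
      rw [r_coe] at hcase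
      have hnot : ¬ (a ∈ B \ D ∧ b ∈ B \ D) := by
        rintro ⟨h4, h5⟩
        unfold rf at hcase
        rw [card_eq_zero, filter_eq_empty_iff] at hcase
        exact hcase (x := (a, b)) (mem_product.2 ⟨h4, h5⟩) hab
      rw [mem_image]
      by_cases haD : a ∈ D
      · refine ⟨(a, b), ?_, hab⟩
        rw [mem_filter, mem_product]
        exact ⟨⟨haD, hbB⟩, by simp only; omega⟩
      · have hbD : b ∈ D := by
          by_contra hbD
          exact hnot ⟨mem_sdiff.2 ⟨haB, haD⟩, mem_sdiff.2 ⟨hbB, hbD⟩⟩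
        refine ⟨(b, a), ?_, by simp only; omega⟩
        rw [mem_filter, mem_product]
        exact ⟨⟨hbD, haB⟩, by simp only; omega⟩
    · exfalso
      rw [r_coe] at hcase
      have h4 : rf (B \ D) n ≤ rf B n := rf_mono sdiff_subset n
      have h5 := rf_le_r hBA n
      omega
  have hsum : ∑ n ∈ (Icc 1 N).filter (fun n => r ((B \ D : Finset ℕ) : Set ℕ) n = 0 ∨
        8 ≤ r ((B \ D : Finset ℕ) : Set ℕ) n), 1 / (n : ℝ) ≤
      (Z + 3) + (6 + 4 * S + 2 * M * (√2 * S)) := by
    refine le_trans (sum_le_sum_of_subset_of_nonneg hsub fun n _ _ => by positivity) ?_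
    have hun : ∀ s t : Finset ℕ, ∑ n ∈ s ∪ t, 1 / (n : ℝ) ≤
        ∑ n ∈ s, 1 / (n : ℝ) + ∑ n ∈ t, 1 / (n : ℝ) := by
      intro s t
      rw [← sum_union_inter]
      have : 0 ≤ ∑ n ∈ s ∩ t, 1 / (n : ℝ) := sum_nonneg fun n _ => by positivity
      linarith
    refine le_trans (hun _ _) (add_le_add (le_trans (hun _ _) (add_le_add le_rfl ?_))
      (le_trans (hun _ _) (add_le_add ?_ hlost)))
    · calc ∑ n ∈ Ioc (N / 2) N, 1 / (n : ℝ) ≤ ∑ n ∈ Ioc (N / 2) N, 2 / (N : ℝ) := by
            apply sum_le_sum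
            intro n hn
            rw [mem_Ioc] at hn
            have hn0 : (0 : ℝ) < n := by
              have : 0 < n := by omega
              exact_mod_cast this
            have hN0 : (0 : ℝ) < N := by exact_mod_cast hN
            rw [div_le_div_iff₀ hn0 hN0]
            have : N ≤ 2 * n := by omega
            have : (N : ℝ) ≤ 2 * n := by exact_mod_cast this
            linarith
        _ = (N - N / 2 : ℕ) * (2 / (N : ℝ)) := by
            rw [sum_const, Nat.card_Ioc, nsmul_eq_mul]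
        _ ≤ 3 := by
            have hN0 : (0 : ℝ) < N := by exact_mod_cast hN
            have h1 : 2 * (N - N / 2) ≤ 3 * N := by omega
            have h2 : 2 * ((N - N / 2 : ℕ) : ℝ) ≤ 3 * N := by exact_mod_cast h1
            rw [mul_div_assoc', div_le_iff₀ hN0]
            linarith
    · refine le_trans (sum_inv_le _) ?_
      have hpos : (0 : ℝ) < ((2 * Y ^ 2 : ℕ) : ℝ) := by positivity
      have h1 : ((2 * Y ^ 2 : ℕ) : ℝ) ≤ 2 * ((2 + S) ^ 2) ^ 2 := by
        push_cast
        have : (Y : ℝ) ≤ (2 + S) ^ 2 := by nlinarith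
        have h0 : (0 : ℝ) ≤ Y := by positivity
        nlinarith
      have h2 : Real.log ((2 * Y ^ 2 : ℕ) : ℝ) ≤ Real.log (2 * ((2 + S) ^ 2) ^ 2) :=
        Real.log_le_log hpos h1
      have h3 : Real.log (2 * ((2 + S) ^ 2) ^ 2) = Real.log 2 + 4 * Real.log (2 + S) := by
        rw [Real.log_mul (by norm_num) (by positivity), Real.log_pow, Real.log_pow]
        push_cast
        ring
      have h4 : Real.log (2 + S) ≤ 1 + S := by
        have := Real.log_le_sub_one_of_pos (x := 2 + S) (by positivity)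
        linarith
      have h5 : Real.log 2 ≤ 1 := by
        have := Real.log_le_sub_one_of_pos (x := 2) (by norm_num)
        linarith
      rw [h3] at h2
      linarith
  have hfin : δ * Real.log N ≤ C + 9 + Z + c * S := by
    have : 4 * S + 2 * M * (√2 * S) = c * S := by rw [hc]; ring
    linarith
  have hNlog : 0 ≤ Real.log N := Real.log_natCast_nonneg N
  rw [div_mul_eq_mul_div, ← sub_div, div_le_iff₀ hc0]
  have : Z * 1 ≤ Z * c := mul_le_mul_of_nonneg_left hc1 hZ0
  nlinarith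

open Classical in
/-- the main inequality for every bound `K` -/
theorem excess (K : ℕ) : ∃ δ : ℝ, 0 < δ ∧ ∃ C : ℝ, ∀ A : Set ℕ, ∀ N : ℕ, 1 ≤ N →
    δ * Real.log N - C ≤
      ∑ n ∈ (Icc 1 N).filter (fun n => r A n = 0 ∨ 8 ≤ r A n), 1 / (n : ℝ) +
      ∑ n ∈ Icc 1 N, ((r A n - K : ℕ) : ℝ) / √(n : ℝ) := by
  obtain ⟨δ, hδ, C, hC⟩ := excess_aux (max K 1) (le_max_right _ _)
  refine ⟨δ, hδ, C, fun A N hN => le_trans (hC A N hN) ?_⟩
  apply add_le_add le_rfl
  apply sum_le_sum
  intro n _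
  apply div_le_div_of_nonneg_right _ (by positivity)
  have : r A n - max K 1 ≤ r A n - K := by omega
  exact_mod_cast this

end Pool.Agent.H38.Exc
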